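import Mathlib

/-! `m` distinct spherical cusp forms on `PGL(2)`: Satake parameters, and the Rankin-Selberg `L`-functions of the
symmetric powers and of the products of the forms. -/

set_option autoImplicit false

namespace Pool.Agent.N678.SG

/-- the names of the automorphic representations used: `one` is the trivial one, `sym k i` is `Sym^(k+1) π_i`,
`prod i j` is `π_i ⊠ π_j` and `adj i j` is `Ad π_i ⊠ π_j` -/
inductive Rep (m : ℕ) : Type
  | one : Rep m
  | sym (k : Fin 4) (i : Fin m) : Rep m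
  | prod (i j : Fin m) : Rep m
  | adj (i j : Fin m) : Rep m
  deriving DecidableEq

/-- the list as a sum of finite types -/
def Rep.equiv (m : ℕ) : Rep m ≃ Option ((Fin 4 × Fin m) ⊕ ((Fin m × Fin m) ⊕ (Fin m × Fin m))) where
  toFun a := match a with
    | .one => none
    | .sym k i => some (.inl (k, i))
    | .prod i j => some (.inr (.inl (i, j)))
    | .adj i j => some (.inr (.inr (i, j)))
  invFun x := match x with
    | none => .one
    | some (.inl (k, i)) => .sym k i
    | some (.inr (.inl (i, j))) => .prod i j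
    | some (.inr (.inr (i, j))) => .adj i j
  left_inv a := by cases a <;> rfl
  right_inv x := by rcases x with _ | (⟨k, i⟩ | (⟨i, j⟩ | ⟨i, j⟩)) <;> rfl

instance (m : ℕ) : Fintype (Rep m) := Fintype.ofEquiv _ (Rep.equiv m).symm

/-- the trace of `Sym^l diag(w, w⁻¹)` -/
noncomputable def sy (l : ℕ) (w : ℂ) : ℂ := ∑ j ∈ Finset.range (l + 1), w ^ (l - j) * w⁻¹ ^ j

variable {m : ℕ}

/-- the trace of the representation `a` at the matrices `diag(w_i, w_i⁻¹)` -/
noncomputable def Rep.trace (a : Rep m) (w : Fin m → ℂ) : ℂ :=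
  match a with
  | .one => 1
  | .sym k i => sy ((k : ℕ) + 1) (w i)
  | .prod i j => sy 1 (w i) * sy 1 (w j)
  | .adj i j => sy 2 (w i) * sy 1 (w j)

/-- the logarithm of the Rankin-Selberg `L`-function `L(s, Π_a × Π_b~)`:
`∑_p ∑_{k ≥ 1} (trace of the `k`-th power for Π_a) (conjugate of that for Π_b) / k · p^{-ks}`,
`α i p` being one of the two Satake parameters of `π_i` at `p` (the other one is its inverse) -/
noncomputable def logRS (α : Fin m → Nat.Primes → ℂ) (a b : Rep m) (s : ℂ) : ℂ :=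
  ∑' x : Nat.Primes × ℕ,
    a.trace (fun i => α i x.1 ^ (x.2 + 1)) * (starRingEnd ℂ) (b.trace fun i => α i x.1 ^ (x.2 + 1)) /
      ((x.2 : ℂ) + 1) * ((((x.1 : ℕ) : ℂ)) ^ (-s)) ^ (x.2 + 1)

/-- What is used of the forms `π_i`, with Satake parameters `α i p`, `(α i p)⁻¹`, and of the representations in the
list `A`. -/
structure Family (α : Fin m → Nat.Primes → ℂ) (A : Finset (Rep m)) : Prop where
  /-- the local components are unitary, with trivial central character -/
  unitary : ∀ i p, α i p ≠ 0 ∧ (‖α i p‖ = 1 ∨ (α i p).im = 0)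
  /-- the Rankin-Selberg Euler products converge absolutely for `Re s > 1` -/
  summable : ∀ a ∈ A, ∀ σ : ℝ, 1 < σ → Summable fun x : Nat.Primes × ℕ =>
    ‖a.trace fun i => α i x.1 ^ (x.2 + 1)‖ ^ 2 / ((x.2 : ℝ) + 1) * (((x.1 : ℕ) : ℝ) ^ (-σ)) ^ (x.2 + 1)
  /-- the Rankin-Selberg `L`-functions `L(s, Π_a × Π_b~)`, `a ≠ b`, and `(s - 1) L(s, Π_a × Π_a~)` are entire, and have
  no zeros with `Re s ≥ 1` -/
  rankinSelberg : ∀ a ∈ A, ∀ b ∈ A, ∃ F : ℂ → ℂ, Differentiable ℂ F ∧ (∀ s : ℂ, 1 ≤ s.re → F s ≠ 0) ∧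
    ∀ s : ℂ, 1 < s.re → F s = (if a = b then s - 1 else 1) * Complex.exp (logRS α a b s)

/-- the eigenvalue `λ_i(p)`, normalised, of the Hecke operator at `p` -/
noncomputable def lam (α : Fin m → Nat.Primes → ℂ) (i : Fin m) (p : Nat.Primes) : ℝ := (α i p + (α i p)⁻¹).re

/-- the trace of the representation `a` in terms of the traces `x i` of the `π_i` -/
noncomputable def Rep.val (a : Rep m) (x : Fin m → ℝ) : ℝ :=
  match a with
  | .one => 1
  | .sym k i => (![x i, x i ^ 2 - 1, x i ^ 3 - 2 * x i, x i ^ 4 - 3 * x i ^ 2 + 1] : Fin 4 → ℝ) k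
  | .prod i j => x i * x j
  | .adj i j => (x i ^ 2 - 1) * x j

open scoped Classical in
/-- the list `1`, `π_i`, `Ad π_i = Sym² π_i`, `π_i ⊠ π_j` (`i < j`) -/
noncomputable def short (m : ℕ) : Finset (Rep m) := Finset.univ.filter fun a => match a with
  | .one => True
  | .sym k _ => (k : ℕ) < 2
  | .prod i j => i < j
  | .adj _ _ => False

open scoped Classical in
/-- the list `1`, `π_i`, `Sym² π_i`, `Sym³ π_i`, `Sym⁴ π_i`, `π_i ⊠ π_j` (`i < j`), `Ad π_i ⊠ π_j` (`i ≠ j`) -/
noncomputable def long (m : ℕ) : Finset (Rep m) := Finset.univ.filter fun a => match a with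
  | .one => True
  | .sym _ _ => True
  | .prod i j => i < j
  | .adj i j => i ≠ j

/-- `π_i` is not tempered at `p`, and the eigenvalue has the sign `e` -/
def Exc (α : Fin m → Nat.Primes → ℂ) (i : Fin m) (e : ℝ) (p : Nat.Primes) : Prop :=
  ‖α i p‖ ≠ 1 ∧ 0 < e * lam α i p

open scoped Classical in
/-- the number of the forms `π_i` which are not tempered at `p`, with an eigenvalue of the sign `ε_i` -/
noncomputable def count (α : Fin m → Nat.Primes → ℂ) (ε : Fin m → ℝ) (p : Nat.Primes) : ℕ :=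
  (Finset.univ.filter fun i => Exc α i (ε i) p).card

open scoped Classical in
/-- The primes with the property `R` have upper Dirichlet density at most `c`. -/
def UpperDensityLe (R : Nat.Primes → Prop) (c : ℝ) : Prop :=
  ∀ ε : ℝ, 0 < ε → ∀ᶠ t : ℝ in nhdsWithin 1 (Set.Ioi 1),
    ∑' p : Nat.Primes, (if R p then ((p : ℕ) : ℝ) ^ (-t) else 0) ≤
      (c + ε) * ∑' p : Nat.Primes, ((p : ℕ) : ℝ) ^ (-t)

end Pool.Agent.N678.SG
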