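import Mathlib
import Pool.Agent.H921R2.TatePole.Main

/-! The moment inequality, in an abstract setting. -/

set_option autoImplicit false

namespace Pool.Agent.N678.SG

open Filter Topology
open Pool.Agent.H921R2.TatePole (Bdd Lam Lam_tendsto)

variable {P : Type} (N : P → ℕ) {J : Type} [Fintype J] [DecidableEq J]

/-- the weight -/
noncomputable def wt (t : ℝ) (x : P × ℕ) : ℝ := ((N x.1 : ℝ) ^ (-t)) ^ (x.2 + 1) / ((x.2 : ℝ) + 1)

theorem wt_nonneg (t : ℝ) (x : P × ℕ) : 0 ≤ wt N t x := by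
  unfold wt
  have : (0 : ℝ) ≤ (N x.1 : ℝ) ^ (-t) := Real.rpow_nonneg (Nat.cast_nonneg _) _
  positivity

/-- What is used of the real traces `τ a p k`, `a` in `J`, `p` a place, `k` the exponent minus one. -/
structure Data (τ : J → P × ℕ → ℝ) : Prop where
  places : ∀ t : ℝ, 1 < t → Summable fun p : P => (N p : ℝ) ^ (-t)
  many : ∃ C : ℝ, ∀ᶠ t : ℝ in 𝓝[>] 1, Lam t ≤ ∑' p : P, (N p : ℝ) ^ (-t) + C
  summable : ∀ a, ∀ t : ℝ, 1 < t → Summable fun x : P × ℕ => τ a x ^ 2 * wt N t x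
  pair : ∀ a b, Bdd fun t => ∑' x : P × ℕ, τ a x * τ b x * wt N t x - (if a = b then Lam t else 0)

variable {N} {τ : J → P × ℕ → ℝ}

theorem summable_mul (h : Data N τ) (a b : J) {t : ℝ} (ht : 1 < t) :
    Summable fun x : P × ℕ => τ a x * τ b x * wt N t x := by
  refine Summable.of_norm_bounded (g := fun x : P × ℕ => τ a x ^ 2 * wt N t x + τ b x ^ 2 * wt N t x)
    ((h.summable a t ht).add (h.summable b t ht)) fun x => ?_
  have hw := wt_nonneg N t x
  rw [Real.norm_eq_abs, abs_mul, abs_of_nonneg hw, ← add_mul]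
  refine mul_le_mul_of_nonneg_right ?_ hw
  rw [abs_mul]
  nlinarith [sq_abs (τ a x), sq_abs (τ b x), sq_nonneg (|τ a x| - |τ b x|), abs_nonneg (τ a x),
    abs_nonneg (τ b x)]

/-- **The moment inequality.** -/
theorem moment (h : Data N τ) (c : J → J → ℝ)
    (hc : ∀ t : J → ℝ, 0 ≤ ∑ a, ∑ b, c a b * (t a * t b)) :
    ∃ C : ℝ, ∀ᶠ t : ℝ in 𝓝[>] 1,
      (Summable fun p : P => (∑ a, ∑ b, c a b * (τ a (p, 0) * τ b (p, 0))) * (N p : ℝ) ^ (-t)) ∧
      ∑' p : P, (∑ a, ∑ b, c a b * (τ a (p, 0) * τ b (p, 0))) * (N p : ℝ) ^ (-t) ≤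
        (∑ a, c a a) * Lam t + C := by
  choose B hB using h.pair
  have hev : ∀ᶠ t : ℝ in 𝓝[>] 1, ∀ a b : J,
      |∑' x : P × ℕ, τ a x * τ b x * wt N t x - (if a = b then Lam t else 0)| ≤ B a b := by
    rw [eventually_all]
    intro a
    rw [eventually_all]
    intro b
    exact hB a b
  refine ⟨∑ a, ∑ b, |c a b| * B a b, ?_⟩
  filter_upwards [hev, self_mem_nhdsWithin] with t h1 ht
  have ht1 : (1 : ℝ) < t := ht
  set Q : P × ℕ → ℝ := fun x => (∑ a, ∑ b, c a b * (τ a x * τ b x)) * wt N t x with hQ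
  have hQ0 : ∀ x, 0 ≤ Q x := fun x => mul_nonneg (hc _) (wt_nonneg N t x)
  have hs : ∀ a b, Summable fun x : P × ℕ => c a b * (τ a x * τ b x * wt N t x) := fun a b =>
    (summable_mul h a b ht1).mul_left _
  have hQs' : Summable fun x : P × ℕ => ∑ a, ∑ b, c a b * (τ a x * τ b x * wt N t x) :=
    summable_sum fun a _ => summable_sum fun b _ => hs a b
  have hQe : ∀ x, Q x = ∑ a, ∑ b, c a b * (τ a x * τ b x * wt N t x) := fun x => by
    rw [hQ]
    simp only
    rw [Finset.sum_mul]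
    refine Finset.sum_congr rfl fun a _ => ?_
    rw [Finset.sum_mul]
    exact Finset.sum_congr rfl fun b _ => by ring
  have hQs : Summable Q := hQs'.congr fun x => (hQe x).symm
  have hQt : ∑' x, Q x = ∑ a, ∑ b, c a b * ∑' x : P × ℕ, τ a x * τ b x * wt N t x := by
    rw [tsum_congr hQe, Summable.tsum_finsetSum fun a _ => summable_sum fun b _ => hs a b]
    refine Finset.sum_congr rfl fun a _ => ?_
    rw [Summable.tsum_finsetSum fun b _ => hs a b]
    exact Finset.sum_congr rfl fun b _ => tsum_mul_left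
  have hinj : Function.Injective fun p : P => ((p, 0) : P × ℕ) := fun v w hvw => (Prod.ext_iff.1 hvw).1
  have e0 : ∀ p : P, Q (p, 0) = (∑ a, ∑ b, c a b * (τ a (p, 0) * τ b (p, 0))) * (N p : ℝ) ^ (-t) := fun p => by
    have e2 : wt N t (p, 0) = (N p : ℝ) ^ (-t) := by simp [wt]
    rw [hQ]
    simp only [e2]
  have hs0 : Summable fun p : P => Q (p, 0) := hQs.comp_injective hinj
  refine ⟨hs0.congr e0, ?_⟩
  rw [← tsum_congr e0]
  refine (tsum_comp_le_tsum_of_inj hQs hQ0 hinj).trans ?_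
  rw [hQt]
  have h3 : (∑ a, c a a) * Lam t + ∑ a, ∑ b, |c a b| * B a b =
      ∑ a, ∑ b, (c a b * (if a = b then Lam t else 0) + |c a b| * B a b) := by
    rw [Finset.sum_mul, ← Finset.sum_add_distrib]
    refine Finset.sum_congr rfl fun a _ => ?_
    rw [Finset.sum_add_distrib]
    simp
  rw [h3]
  refine Finset.sum_le_sum fun a _ => Finset.sum_le_sum fun b _ => ?_
  have h4 : c a b * (∑' x : P × ℕ, τ a x * τ b x * wt N t x - (if a = b then Lam t else 0)) ≤
      |c a b| * B a b := by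
    refine (le_abs_self _).trans ?_
    rw [abs_mul]
    exact mul_le_mul_of_nonneg_left (h1 a b) (abs_nonneg _)
  linarith

open scoped Classical in
/-- the places with the property `R` have upper Dirichlet density at most `c` -/
def UDL (N : P → ℕ) (R : P → Prop) (c : ℝ) : Prop :=
  ∀ ε : ℝ, 0 < ε → ∀ᶠ t : ℝ in 𝓝[>] 1,
    ∑' p : P, (if R p then (N p : ℝ) ^ (-t) else 0) ≤ (c + ε) * ∑' p : P, (N p : ℝ) ^ (-t)

/-- **The density inequality.** -/
theorem density (h : Data N τ) (c : J → J → ℝ)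
    (hc : ∀ t : J → ℝ, 0 ≤ ∑ a, ∑ b, c a b * (t a * t b)) {R : P → Prop} {κ : ℝ}
    (hκ : 0 < κ) (hP : ∀ p, R p → κ ≤ ∑ a, ∑ b, c a b * (τ a (p, 0) * τ b (p, 0))) :
    UDL N R ((∑ a, c a a) / κ) := by
  classical
  intro ε hε
  obtain ⟨C1, h1⟩ := moment h c hc
  obtain ⟨C2, h2⟩ := h.many
  have hA : 0 ≤ ∑ a, c a a := by
    refine Finset.sum_nonneg fun a _ => ?_
    have := hc (fun b => if b = a then 1 else 0)
    simpa using this
  have h3' := Lam_tendsto.eventually_ge_atTop ((|C1| + (∑ a, c a a) * |C2|) / (κ * ε) + |C2|)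
  filter_upwards [h1, h2, h3', self_mem_nhdsWithin] with t ht1 ht2 ht3 ht
  have ht' : (1 : ℝ) < t := ht
  obtain ⟨hs, hle⟩ := ht1
  set A := ∑ a, c a a with hAdef
  set Z := ∑' p : P, (N p : ℝ) ^ (-t) with hZ
  have rp : ∀ p, (0 : ℝ) ≤ (N p : ℝ) ^ (-t) := fun p => Real.rpow_nonneg (Nat.cast_nonneg _) _
  have h4 : κ * ∑' p : P, (if R p then (N p : ℝ) ^ (-t) else 0) ≤
      ∑' p : P, (∑ a, ∑ b, c a b * (τ a (p, 0) * τ b (p, 0))) * (N p : ℝ) ^ (-t) := by
    rw [← tsum_mul_left]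
    refine Summable.tsum_le_tsum (fun p => ?_) ?_ hs
    · split_ifs with hv
      · exact mul_le_mul_of_nonneg_right (hP p hv) (rp p)
      · rw [mul_zero]
        exact mul_nonneg (hc _) (rp p)
    · refine Summable.mul_left _ (Summable.of_nonneg_of_le (fun p => ?_) (fun p => ?_) (h.places t ht'))
      · split_ifs
        · exact rp p
        · exact le_rfl
      · split_ifs
        · exact le_rfl
        · exact rp p
  have h5 : |C1| + A * |C2| ≤ κ * ε * Z := by
    have h6 : (|C1| + A * |C2|) / (κ * ε) ≤ Z := by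
      have := le_abs_self C2
      linarith
    rw [div_le_iff₀ (by positivity)] at h6
    linarith
  have h7 : A * Lam t ≤ A * (Z + C2) := mul_le_mul_of_nonneg_left ht2 hA
  have h8 : A * C2 ≤ A * |C2| := mul_le_mul_of_nonneg_left (le_abs_self _) hA
  have h9 := le_abs_self C1
  have h10 : κ * ∑' p : P, (if R p then (N p : ℝ) ^ (-t) else 0) ≤ κ * ((A / κ + ε) * Z) := by
    have e : κ * ((A / κ + ε) * Z) = A * Z + κ * ε * Z := by
      field_simp
    rw [e]
    linarith
  exact le_of_mul_le_mul_left h10 hκ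

/-- The case of a square. -/
theorem density_sq (h : Data N τ) (w : J → ℝ) {R : P → Prop} {κ : ℝ}
    (hκ : 0 < κ) (hP : ∀ p, R p → κ ≤ (∑ a, w a * τ a (p, 0)) ^ 2) :
    UDL N R ((∑ a, w a ^ 2) / κ) := by
  have e : ∀ t : J → ℝ, ∑ a, ∑ b, w a * w b * (t a * t b) = (∑ a, w a * t a) ^ 2 := fun t => by
    rw [sq, Finset.sum_mul_sum]
    exact Finset.sum_congr rfl fun a _ => Finset.sum_congr rfl fun b _ => by ring
  have := density h (fun a b => w a * w b) (fun t => by rw [e]; positivity) (R := R) hκ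
    (fun p hp => by rw [e]; exact hP p hp)
  simpa only [← sq] using this

theorem UDL.mono {R Q : P → Prop} {c d : ℝ} (hs : ∀ t : ℝ, 1 < t → Summable fun p : P => (N p : ℝ) ^ (-t))
    (h : UDL N R c) (hRQ : ∀ p, Q p → R p) (hcd : c ≤ d) : UDL N Q d := by
  classical
  intro ε hε
  filter_upwards [h ε hε, self_mem_nhdsWithin] with t h1 ht
  have ht1 : (1 : ℝ) < t := ht
  have hs := hs t ht1
  have rp : ∀ p, (0 : ℝ) ≤ (N p : ℝ) ^ (-t) := fun p => Real.rpow_nonneg (Nat.cast_nonneg _) _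
  have hZ : 0 ≤ ∑' p : P, (N p : ℝ) ^ (-t) := tsum_nonneg rp
  refine le_trans ?_ (h1.trans (mul_le_mul_of_nonneg_right (by linarith) hZ))
  have hsum : ∀ R : P → Prop, Summable fun p : P => if R p then (N p : ℝ) ^ (-t) else 0 := fun R => by
    refine Summable.of_nonneg_of_le (fun p => ?_) (fun p => ?_) hs
    · split_ifs
      · exact rp p
      · exact le_rfl
    · split_ifs
      · exact le_rfl
      · exact rp p
  refine Summable.tsum_le_tsum (fun p => ?_) (hsum Q) (hsum R)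
  by_cases hQ : Q p
  · rw [if_pos hQ, if_pos (hRQ p hQ)]
  · rw [if_neg hQ]
    split_ifs
    · exact rp p
    · exact le_rfl

end Pool.Agent.N678.SG
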