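import Mathlib
import Pool.Agent.N678.SG.Defs
import Pool.Agent.N678.SG.Engine

/-! The moment inequality for the lists of representations. -/

set_option autoImplicit false

namespace Pool.Agent.N678.SG

open Filter Topology
open Pool.Agent.H921R2.TatePole (Bdd Lam Lam_tendsto W_sub_Lam_bdd W)

variable {m : ℕ} {α : Fin m → Nat.Primes → ℂ} {A : Finset (Rep m)}

/-- the parameter `w` is that of a unitary representation -/
def Uni (w : ℂ) : Prop := w ≠ 0 ∧ (‖w‖ = 1 ∨ w.im = 0)

theorem Uni.pow {w : ℂ} (h : Uni w) (k : ℕ) : Uni (w ^ k) := by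
  refine ⟨pow_ne_zero _ h.1, ?_⟩
  rcases h.2 with h2 | h2
  · left
    rw [norm_pow, h2, one_pow]
  · right
    have e : w = ((w.re : ℝ) : ℂ) := Complex.ext (by simp) (by simpa using h2)
    rw [e, ← Complex.ofReal_pow, Complex.ofReal_im]

theorem Uni.conj_or {w : ℂ} (h : Uni w) : (starRingEnd ℂ) w = w⁻¹ ∨ (starRingEnd ℂ) w = w := by
  rcases h.2 with h2 | h2
  · left
    rw [Complex.inv_def, Complex.normSq_eq_norm_sq, h2]
    simp
  · right
    exact Complex.conj_eq_iff_im.2 h2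

theorem sy_inv (l : ℕ) (w : ℂ) : sy l w⁻¹ = sy l w := by
  unfold sy
  rw [← Finset.sum_range_reflect]
  refine Finset.sum_congr rfl fun j hj => ?_
  rw [Finset.mem_range] at hj
  have e1 : l + 1 - 1 - j = l - j := by omega
  have e2 : l - (l - j) = j := by omega
  rw [e1, e2, inv_inv, mul_comm]

theorem sy_conj (l : ℕ) (w : ℂ) : (starRingEnd ℂ) (sy l w) = sy l ((starRingEnd ℂ) w) := by
  unfold sy
  rw [map_sum]
  exact Finset.sum_congr rfl fun j _ => by simp

theorem sy_im {w : ℂ} (h : Uni w) (l : ℕ) : (sy l w).im = 0 := by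
  rw [← Complex.conj_eq_iff_im, sy_conj]
  rcases h.conj_or with h2 | h2
  · rw [h2, sy_inv]
  · rw [h2]

theorem sy_ofReal {w : ℂ} (h : Uni w) (l : ℕ) : (((sy l w).re : ℝ) : ℂ) = sy l w :=
  Complex.ext (by simp) (by simp [sy_im h l])

theorem sy_one_eq (w : ℂ) : sy 1 w = w + w⁻¹ := by
  simp [sy, Finset.sum_range_succ]

theorem sy_rel {w : ℂ} (hw : w ≠ 0) : sy 2 w = sy 1 w ^ 2 - 1 ∧ sy 3 w = sy 1 w ^ 3 - 2 * sy 1 w ∧
    sy 4 w = sy 1 w ^ 4 - 3 * sy 1 w ^ 2 + 1 := by
  refine ⟨?_, ?_, ?_⟩ <;>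
  · simp only [sy, Finset.sum_range_succ, Finset.sum_range_zero]
    field_simp
    norm_num
    ring

theorem trace_im (a : Rep m) {w : Fin m → ℂ} (h : ∀ i, Uni (w i)) : (a.trace w).im = 0 := by
  cases a with
  | one => simp [Rep.trace]
  | sym k i => exact sy_im (h i) _
  | prod i j =>
    show (sy 1 (w i) * sy 1 (w j)).im = 0
    rw [Complex.mul_im, sy_im (h i), sy_im (h j)]
    ring
  | adj i j =>
    show (sy 2 (w i) * sy 1 (w j)).im = 0
    rw [Complex.mul_im, sy_im (h i), sy_im (h j)]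
    ring

theorem trace_re (a : Rep m) {w : Fin m → ℂ} (h : ∀ i, Uni (w i)) :
    (a.trace w).re = a.val fun i => (w i + (w i)⁻¹).re := by
  have e1 : ∀ i, (w i + (w i)⁻¹).re = (sy 1 (w i)).re := fun i => by rw [sy_one_eq]
  have e2 : ∀ i, sy 1 (w i) = (((sy 1 (w i)).re : ℝ) : ℂ) := fun i => (sy_ofReal (h i) 1).symm
  cases a with
  | one => simp [Rep.trace, Rep.val]
  | sym k i =>
    obtain ⟨h2, h3, h4⟩ := sy_rel (h i).1
    fin_cases k
    · show (sy 1 (w i)).re = (w i + (w i)⁻¹).re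
      rw [e1]
    · show (sy 2 (w i)).re = ((w i + (w i)⁻¹).re) ^ 2 - 1
      rw [h2, e2 i, e1]
      norm_cast
    · show (sy 3 (w i)).re = ((w i + (w i)⁻¹).re) ^ 3 - 2 * (w i + (w i)⁻¹).re
      rw [h3, e2 i, e1]
      norm_cast
    · show (sy 4 (w i)).re = ((w i + (w i)⁻¹).re) ^ 4 - 3 * ((w i + (w i)⁻¹).re) ^ 2 + 1
      rw [h4, e2 i, e1]
      norm_cast
  | prod i j =>
    show (sy 1 (w i) * sy 1 (w j)).re = (w i + (w i)⁻¹).re * (w j + (w j)⁻¹).re
    rw [e1, e1, Complex.mul_re, sy_im (h i)]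
    ring
  | adj i j =>
    show (sy 2 (w i) * sy 1 (w j)).re = ((w i + (w i)⁻¹).re ^ 2 - 1) * (w j + (w j)⁻¹).re
    rw [(sy_rel (h i).1).1, e2 i, e2 j, e1, e1]
    norm_cast

/-- the real parts of the traces -/
noncomputable def rt (α : Fin m → Nat.Primes → ℂ) (A : Finset (Rep m)) (a : {a // a ∈ A}) (x : Nat.Primes × ℕ) :
    ℝ := (a.1.trace fun i => α i x.1 ^ (x.2 + 1)).re

/-- the norm of a prime -/
abbrev NP (p : Nat.Primes) : ℕ := (p : ℕ)

theorem two_le_NP (p : Nat.Primes) : 2 ≤ NP p := p.2.two_le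

theorem NP_pos (p : Nat.Primes) : (0 : ℝ) < NP p := by
  have := two_le_NP p
  exact_mod_cast (by omega : 0 < NP p)

theorem uni (h : Family α A) (i : Fin m) (p : Nat.Primes) : Uni (α i p) := h.unitary i p

theorem trace_ofReal (h : Family α A) (a : {a // a ∈ A}) (x : Nat.Primes × ℕ) :
    (a.1.trace fun i => α i x.1 ^ (x.2 + 1)) = ((rt α A a x : ℝ) : ℂ) := by
  refine Complex.ext ?_ ?_
  · simp [rt]
  · have := trace_im a.1 (w := fun i => α i x.1 ^ (x.2 + 1)) fun i => (uni h i x.1).pow _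
    simpa using this

theorem logRS_eq (h : Family α A) (a b : {a // a ∈ A}) (t : ℝ) :
    logRS α a b t = ((∑' x : Nat.Primes × ℕ, rt α A a x * rt α A b x * wt NP t x : ℝ) : ℂ) := by
  unfold logRS
  rw [Complex.ofReal_tsum]
  refine tsum_congr fun x => ?_
  rw [trace_ofReal h a, trace_ofReal h b, Complex.conj_ofReal]
  have e2 : ((((x.1 : ℕ) : ℂ)) ^ (-(t : ℂ))) = (((NP x.1 : ℝ) ^ (-t) : ℝ) : ℂ) := by
    rw [Complex.ofReal_cpow (NP_pos x.1).le]
    push_cast
    rfl
  rw [e2]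
  unfold wt
  push_cast
  ring

/-- the data for the abstract moment inequality -/
theorem data (h : Family α A) : Data NP (rt α A) where
  places t ht := Nat.Primes.summable_rpow.2 (by linarith)
  many := by
    obtain ⟨C, hC⟩ := W_sub_Lam_bdd
    refine ⟨C, ?_⟩
    filter_upwards [hC] with t h1
    have h2 := (abs_le.1 h1).1
    have e : W t = ∑' p : Nat.Primes, (NP p : ℝ) ^ (-t) := rfl
    linarith
  summable a t ht := by
    refine (h.summable a.1 a.2 t ht).congr fun x => ?_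
    rw [trace_ofReal h a, Complex.norm_real, Real.norm_eq_abs, sq_abs]
    unfold wt
    ring
  pair a b := by
    classical
    obtain ⟨F, hF, hF0, hFe⟩ := h.rankinSelberg a.1 a.2 b.1 b.2
    have h1 : Tendsto (fun t : ℝ => Real.log ‖F t‖) (𝓝[>] 1) (𝓝 (Real.log ‖F (1 : ℝ)‖)) := by
      have hc : Continuous fun t : ℝ => ‖F t‖ := (hF.continuous.comp Complex.continuous_ofReal).norm
      refine (hc.tendsto 1).log ?_ |>.mono_left nhdsWithin_le_nhds
      exact norm_ne_zero_iff.2 (hF0 _ (by simp))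
    refine (Bdd.of_tendsto h1).congr fun t ht => ?_
    have h2 := hFe t (by simpa using ht)
    rw [h2, logRS_eq h, ← Complex.ofReal_exp, norm_mul, Complex.norm_real, Real.norm_eq_abs,
      abs_of_pos (Real.exp_pos _)]
    by_cases hab : a = b
    · rw [if_pos hab, if_pos (by rw [hab])]
      have h3 : ‖((t : ℂ) - 1)‖ = t - 1 := by
        rw [← Complex.ofReal_one, ← Complex.ofReal_sub, Complex.norm_real, Real.norm_of_nonneg (by linarith)]
      rw [h3, Real.log_mul (by linarith) (Real.exp_pos _).ne', Real.log_exp]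
      unfold Lam
      rw [one_div, Real.log_inv]
      ring
    · rw [if_neg hab, if_neg fun e => hab (Subtype.ext e), norm_one, one_mul, Real.log_exp]
      ring

theorem rt_zero (h : Family α A) (a : {a // a ∈ A}) (p : Nat.Primes) :
    rt α A a (p, 0) = a.1.val fun i => lam α i p := by
  have h1 := trace_re a.1 (w := fun i => α i p) fun i => uni h i p
  have e : rt α A a (p, 0) = (a.1.trace fun i => α i p).re := by simp [rt]
  rw [e, h1]
  rfl

theorem upper_iff {R : Nat.Primes → Prop} {c : ℝ} : UpperDensityLe R c ↔ UDL NP R c := Iff.rfl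

/-- The density inequality for a square. -/
theorem density_A (h : Family α A) (w : Rep m → ℝ) {R : Nat.Primes → Prop} {κ : ℝ} (hκ : 0 < κ)
    (hP : ∀ p, R p → κ ≤ (∑ a ∈ A, w a * a.val fun i => lam α i p) ^ 2) :
    UpperDensityLe R ((∑ a ∈ A, w a ^ 2) / κ) := by
  have h1 := density_sq (data h) (fun a => w a.1) (R := R) hκ fun p hp => by
    have e : ∑ a : {a // a ∈ A}, w a.1 * rt α A a (p, 0) = ∑ a ∈ A, w a * a.val fun i => lam α i p := by
      rw [← Finset.sum_coe_sort A fun a => w a * a.val fun i => lam α i p]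
      exact Finset.sum_congr rfl fun a _ => by rw [rt_zero h]
    rw [e]
    exact hP p hp
  rw [Finset.sum_coe_sort A fun a => w a ^ 2] at h1
  exact h1

theorem UpperDensityLe.mono {R Q : Nat.Primes → Prop} {c d : ℝ} (h : UpperDensityLe R c) (hRQ : ∀ p, Q p → R p)
    (hcd : c ≤ d) : UpperDensityLe Q d :=
  UDL.mono (N := NP) (fun t ht => Nat.Primes.summable_rpow.2 (by linarith)) h hRQ hcd

end Pool.Agent.N678.SG
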