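import Mathlib
import Pool.Agent.N678.SG.Main

/-! The parts of the theorem. -/

set_option autoImplicit false

namespace Pool.Agent.N678.SG

open Filter Topology

variable {m : ℕ} {α : Fin m → Nat.Primes → ℂ} {A : Finset (Rep m)}

theorem sum_rep (f : Rep m → ℝ) : ∑ a, f a = f .one + ((∑ i, (f (.sym 0 i) + f (.sym 1 i) + f (.sym 2 i) +
    f (.sym 3 i))) + (∑ i, ∑ j, f (.prod i j) + ∑ i, ∑ j, f (.adj i j))) := by
  rw [← Equiv.sum_comp (Rep.equiv m).symm f, Fintype.sum_option, Fintype.sum_sum_type, Fintype.sum_sum_type,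
    Fintype.sum_prod_type, Fintype.sum_prod_type, Fintype.sum_prod_type, Finset.sum_comm]
  simp only [Fin.sum_univ_four]
  rfl

theorem sum_short (f : Rep m → ℝ) : ∑ a ∈ short m, f a = f .one + ((∑ i, (f (.sym 0 i) + f (.sym 1 i))) +
    ∑ i, ∑ j, if i < j then f (.prod i j) else 0) := by
  classical
  unfold short
  rw [Finset.sum_filter, sum_rep]
  simp
  exact Finset.sum_congr rfl fun i _ => Finset.sum_congr rfl fun j _ => by congr

theorem sum_long (f : Rep m → ℝ) : ∑ a ∈ long m, f a = f .one + ((∑ i, (f (.sym 0 i) + f (.sym 1 i) + f (.sym 2 i) +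
    f (.sym 3 i))) + ((∑ i, ∑ j, if i < j then f (.prod i j) else 0) +
    ∑ i, ∑ j, if i ≠ j then f (.adj i j) else 0)) := by
  classical
  unfold long
  rw [Finset.sum_filter, sum_rep]
  simp
  refine congrArg₂ (· + ·) (Finset.sum_congr rfl fun i _ => Finset.sum_congr rfl fun j _ => by congr)
    (Finset.sum_congr rfl fun i _ => Finset.sum_congr rfl fun j _ => by congr)

theorem one_mem_short : Rep.one ∈ short m := by
  classical
  simp [short]

theorem one_mem_long : Rep.one ∈ long m := by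
  classical
  simp [long]

theorem sum_lt (f g : Fin m → ℝ) : ∑ i, ∑ j, (if i < j then f i * g j + f j * g i else 0) =
    (∑ i, f i) * (∑ i, g i) - ∑ i, f i * g i := by
  have h1 : (∑ i, f i) * (∑ i, g i) = ∑ i, ∑ j, ((if i < j then f i * g j else 0) + (if j < i then f i * g j else 0) +
      if i = j then f i * g j else 0) := by
    rw [Finset.sum_mul_sum]
    refine Finset.sum_congr rfl fun i _ => Finset.sum_congr rfl fun j _ => ?_
    rcases lt_trichotomy i j with h | h | h
    · rw [if_pos h, if_neg h.not_gt, if_neg h.ne]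
      ring
    · subst h
      simp
    · rw [if_neg h.not_gt, if_pos h, if_neg h.ne']
      ring
  rw [h1]
  simp only [Finset.sum_add_distrib]
  have h2 : ∑ i : Fin m, ∑ j : Fin m, (if j < i then f i * g j else 0) =
      ∑ i : Fin m, ∑ j : Fin m, if i < j then f j * g i else 0 := Finset.sum_comm
  rw [h2]
  have h3 : ∑ i : Fin m, ∑ j : Fin m, (if i = j then f i * g j else 0) = ∑ i, f i * g i := by
    refine Finset.sum_congr rfl fun i _ => ?_
    rw [Finset.sum_ite_eq]
    simp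
  rw [h3, add_sub_cancel_right]
  rw [← Finset.sum_add_distrib]
  refine Finset.sum_congr rfl fun i _ => ?_
  rw [← Finset.sum_add_distrib]
  refine Finset.sum_congr rfl fun j _ => ?_
  split_ifs <;> ring

theorem sum_lt' (f : Fin m → ℝ) : ∑ i, ∑ j, (if i < j then f i * f j else 0) =
    ((∑ i, f i) ^ 2 - ∑ i, f i ^ 2) / 2 := by
  have h := sum_lt f f
  have h1 : ∑ i : Fin m, ∑ j : Fin m, (if i < j then f i * f j + f j * f i else 0) =
      2 * ∑ i : Fin m, ∑ j : Fin m, (if i < j then f i * f j else 0) := by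
    rw [Finset.mul_sum]
    refine Finset.sum_congr rfl fun i _ => ?_
    rw [Finset.mul_sum]
    refine Finset.sum_congr rfl fun j _ => ?_
    split_ifs <;> ring
  rw [h1] at h
  have h2 : ∑ i : Fin m, f i * f i = ∑ i, f i ^ 2 := Finset.sum_congr rfl fun i _ => (sq _).symm
  rw [h2] at h
  linarith

/-- signs -/
theorem val_sign (a : Rep m) {ε T y : Fin m → ℝ} (hε : ∀ i, ε i ^ 2 = 1) (hT : ∀ i, 2 ≤ T i) (hy : ∀ i, T i ≤ y i) :
    a.val T ^ 2 ≤ a.val (fun i => ε i * T i) * a.val fun i => ε i * y i := by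
  have h1 : ∀ i, ε i * T i * (ε i * y i) = T i * y i := fun i => by
    have := hε i
    linear_combination (T i * y i) * this
  have h2 : ∀ i, T i * T i ≤ T i * y i := fun i => mul_le_mul_of_nonneg_left (hy i) (by linarith [hT i])
  have h3 : ∀ i, (ε i * T i) ^ 2 = T i ^ 2 := fun i => by rw [mul_pow, hε i, one_mul]
  have h4 : ∀ i, (ε i * y i) ^ 2 = y i ^ 2 := fun i => by rw [mul_pow, hε i, one_mul]
  have h5 : ∀ i, T i ^ 2 ≤ y i ^ 2 := fun i => pow_le_pow_left₀ (by linarith [hT i]) (hy i) 2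
  have h6 : ∀ i, 4 ≤ T i ^ 2 := fun i => by nlinarith [hT i]
  cases a with
  | one => simp [Rep.val]
  | sym k i =>
    fin_cases k
    · show T i ^ 2 ≤ ε i * T i * (ε i * y i)
      rw [h1, sq]
      exact h2 i
    · show (T i ^ 2 - 1) ^ 2 ≤ ((ε i * T i) ^ 2 - 1) * ((ε i * y i) ^ 2 - 1)
      rw [h3, h4]
      nlinarith [h5 i, h6 i]
    · show (T i ^ 3 - 2 * T i) ^ 2 ≤ ((ε i * T i) ^ 3 - 2 * (ε i * T i)) * ((ε i * y i) ^ 3 - 2 * (ε i * y i))
      have e : ((ε i * T i) ^ 3 - 2 * (ε i * T i)) * ((ε i * y i) ^ 3 - 2 * (ε i * y i)) =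
          (ε i * T i * (ε i * y i)) * (((ε i * T i) ^ 2 - 2) * ((ε i * y i) ^ 2 - 2)) := by ring
      have e2 : (T i ^ 3 - 2 * T i) ^ 2 = (T i * T i) * ((T i ^ 2 - 2) * (T i ^ 2 - 2)) := by ring
      rw [e, h1, h3, h4, e2]
      have h7 := h5 i
      have h8 := h6 i
      refine mul_le_mul (h2 i) (mul_le_mul_of_nonneg_left (by linarith) (by linarith)) ?_ ?_
      · exact mul_nonneg (by linarith) (by linarith)
      · exact mul_nonneg (by linarith [hT i]) (by linarith [hT i, hy i])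
    · show (T i ^ 4 - 3 * T i ^ 2 + 1) ^ 2 ≤
        ((ε i * T i) ^ 4 - 3 * (ε i * T i) ^ 2 + 1) * ((ε i * y i) ^ 4 - 3 * (ε i * y i) ^ 2 + 1)
      have e : ∀ x : ℝ, x ^ 4 - 3 * x ^ 2 + 1 = (x ^ 2) ^ 2 - 3 * x ^ 2 + 1 := fun x => by ring
      rw [e (ε i * T i), e (ε i * y i), e (T i), h3, h4]
      have h7 := h5 i
      have h8 := h6 i
      have h9 : (T i ^ 2) ^ 2 - 3 * T i ^ 2 + 1 ≤ (y i ^ 2) ^ 2 - 3 * y i ^ 2 + 1 := by nlinarith
      have h10 : 0 ≤ (T i ^ 2) ^ 2 - 3 * T i ^ 2 + 1 := by nlinarith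
      rw [sq (((T i ^ 2) ^ 2 - 3 * T i ^ 2 + 1) : ℝ)]
      exact mul_le_mul_of_nonneg_left h9 h10
  | prod i j =>
    show (T i * T j) ^ 2 ≤ (ε i * T i) * (ε j * T j) * ((ε i * y i) * (ε j * y j))
    have e : (ε i * T i) * (ε j * T j) * ((ε i * y i) * (ε j * y j)) =
        (ε i * T i * (ε i * y i)) * (ε j * T j * (ε j * y j)) := by ring
    rw [e, h1, h1, mul_pow, sq, sq]
    exact mul_le_mul (h2 i) (h2 j) (by nlinarith [hT j]) (by nlinarith [hT i, hy i])
  | adj i j =>
    show ((T i ^ 2 - 1) * T j) ^ 2 ≤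
      (((ε i * T i) ^ 2 - 1) * (ε j * T j)) * (((ε i * y i) ^ 2 - 1) * (ε j * y j))
    have e : (((ε i * T i) ^ 2 - 1) * (ε j * T j)) * (((ε i * y i) ^ 2 - 1) * (ε j * y j)) =
        ((ε j * T j) * (ε j * y j)) * (((ε i * T i) ^ 2 - 1) * ((ε i * y i) ^ 2 - 1)) := by ring
    have e2 : ((T i ^ 2 - 1) * T j) ^ 2 = (T j * T j) * ((T i ^ 2 - 1) * (T i ^ 2 - 1)) := by ring
    rw [e, h1, h3, h4, e2]
    have h7 := h5 i
    have h8 := h6 i
    exact mul_le_mul (h2 j) (mul_le_mul_of_nonneg_left (by linarith) (by linarith))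
      (mul_nonneg (by linarith) (by linarith)) (mul_nonneg (by linarith [hT j]) (by linarith [hT j, hy j]))

theorem val_sign_sq (a : Rep m) {ε T : Fin m → ℝ} (hε : ∀ i, ε i ^ 2 = 1) :
    a.val (fun i => ε i * T i) ^ 2 = a.val T ^ 2 := by
  have h3 : ∀ i, (ε i * T i) ^ 2 = T i ^ 2 := fun i => by rw [mul_pow, hε i, one_mul]
  cases a with
  | one => simp [Rep.val]
  | sym k i =>
    fin_cases k
    · exact h3 i
    · show ((ε i * T i) ^ 2 - 1) ^ 2 = (T i ^ 2 - 1) ^ 2
      rw [h3]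
    · show ((ε i * T i) ^ 3 - 2 * (ε i * T i)) ^ 2 = (T i ^ 3 - 2 * T i) ^ 2
      have e : ∀ x : ℝ, (x ^ 3 - 2 * x) ^ 2 = x ^ 2 * (x ^ 2 - 2) ^ 2 := fun x => by ring
      rw [e, e, h3]
    · show ((ε i * T i) ^ 4 - 3 * (ε i * T i) ^ 2 + 1) ^ 2 = (T i ^ 4 - 3 * T i ^ 2 + 1) ^ 2
      have e : ∀ x : ℝ, x ^ 4 - 3 * x ^ 2 + 1 = (x ^ 2) ^ 2 - 3 * x ^ 2 + 1 := fun x => by ring
      rw [e, e, h3]
  | prod i j =>
    show ((ε i * T i) * (ε j * T j)) ^ 2 = (T i * T j) ^ 2
    rw [mul_pow, h3, h3, mul_pow]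
  | adj i j =>
    show (((ε i * T i) ^ 2 - 1) * (ε j * T j)) ^ 2 = ((T i ^ 2 - 1) * T j) ^ 2
    rw [mul_pow, h3, h3, mul_pow]

/-- Prescribed signs. -/
theorem signs (h : Family α A) (hA : Rep.one ∈ A) {ε T : Fin m → ℝ} (hε : ∀ i, ε i ^ 2 = 1) (hT : ∀ i, 2 ≤ T i) :
    UpperDensityLe (fun p => ∀ i, T i ≤ ε i * lam α i p) (1 / ∑ a ∈ A, a.val T ^ 2) := by
  have hK : 0 < ∑ a ∈ A, a.val T ^ 2 :=
    Finset.sum_pos' (fun a _ => sq_nonneg _) ⟨.one, hA, by simp [Rep.val]⟩
  have h1 := density_A h (fun a => a.val fun i => ε i * T i)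
    (R := fun p => ∀ i, T i ≤ ε i * lam α i p) (κ := (∑ a ∈ A, a.val T ^ 2) ^ 2) (by positivity) fun p hp => by
      refine pow_le_pow_left₀ hK.le (Finset.sum_le_sum fun a _ => ?_) 2
      have h2 := val_sign a hε hT hp
      have e : (fun i => ε i * (ε i * lam α i p)) = fun i => lam α i p := by
        funext i
        have := hε i
        linear_combination (lam α i p) * this
      rwa [e] at h2
  refine h1.mono (fun p hp => hp) (le_of_eq ?_)
  rw [Finset.sum_congr rfl fun a _ => val_sign_sq a hε, sq (∑ a ∈ A, a.val T ^ 2), div_mul_eq_div_div,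
    div_self hK.ne']

theorem short_two : ∑ a ∈ short m, a.val (fun _ => 2) ^ 2 = 8 * m ^ 2 + 5 * m + 1 := by
  rw [sum_short]
  have h := sum_lt' (m := m) fun _ => 1
  simp only [mul_one, one_pow] at h
  have e : ∀ i j : Fin m, (if i < j then (Rep.prod i j).val (fun _ => 2) ^ 2 else 0 : ℝ) =
      16 * if i < j then 1 else 0 := fun i j => by
    split_ifs
    · show ((2 : ℝ) * 2) ^ 2 = 16 * 1
      norm_num
    · simp
  simp only [e, ← Finset.mul_sum, h]
  simp [Rep.val]
  ring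

theorem long_two : ∑ a ∈ long m, a.val (fun _ => 2) ^ 2 = 44 * m ^ 2 + 10 * m + 1 := by
  rw [sum_long]
  have h := sum_lt' (m := m) fun _ => 1
  simp only [mul_one, one_pow] at h
  have e : ∀ i j : Fin m, (if i < j then (Rep.prod i j).val (fun _ => 2) ^ 2 else 0 : ℝ) =
      16 * if i < j then 1 else 0 := fun i j => by
    split_ifs
    · show ((2 : ℝ) * 2) ^ 2 = 16 * 1
      norm_num
    · simp
  have e2 : ∀ i j : Fin m, (if i ≠ j then (Rep.adj i j).val (fun _ => 2) ^ 2 else 0 : ℝ) =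
      36 - if i = j then 36 else 0 := fun i j => by
    by_cases hij : i = j
    · simp [hij]
    · rw [if_pos hij, if_neg hij]
      show (((2 : ℝ) ^ 2 - 1) * 2) ^ 2 = 36 - 0
      norm_num
  simp only [e, e2, ← Finset.mul_sum, h]
  simp [Rep.val]
  ring

/-- All forms large, without signs. -/
theorem all_large (h : Family α (long m)) (hm : 0 < m) :
    UpperDensityLe (fun p => ∀ i, 2 ≤ |lam α i p|) (1 / (36 * m - 16)) := by
  classical
  set j0 : Fin m := ⟨0, hm⟩ with hj0
  have hm1 : (1 : ℝ) ≤ m := by exact_mod_cast hm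
  have hκ : (0 : ℝ) < 36 * m - 16 := by linarith
  set w : Rep m → ℝ := fun a => match a with
    | .one => 0
    | .sym k i => if i = j0 then (![2, 0, 4, 0] : Fin 4 → ℝ) k else 0
    | .prod _ _ => 0
    | .adj _ j => if j = j0 then 6 else 0 with hw
  have e1 : ∀ i j : Fin m, (if i ≠ j then w (.adj i j) ^ 2 else 0 : ℝ) =
      (if j = j0 then 36 else 0) - if i = j0 ∧ j = j0 then 36 else 0 := fun i j => by
    show (if i ≠ j then (if j = j0 then (6 : ℝ) else 0) ^ 2 else 0 : ℝ) = _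
    by_cases h1 : j = j0
    · by_cases h2 : i = j0
      · simp [h1, h2]
      · have h3 : i ≠ j := by rw [h1]; exact h2
        rw [if_pos h3, if_pos h1, if_pos h1, if_neg fun h => h2 h.1]
        norm_num
    · simp [h1]
  have hsq : ∑ a ∈ long m, w a ^ 2 = 36 * m - 16 := by
    rw [sum_long]
    simp only [e1, Finset.sum_sub_distrib]
    have e2 : ∑ i : Fin m, ∑ j : Fin m, (if i = j0 ∧ j = j0 then (36 : ℝ) else 0) = 36 := by
      rw [Finset.sum_eq_single j0, Finset.sum_eq_single j0]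
      · simp
      · intro j _ hj
        simp [hj]
      · simp
      · intro i _ hi
        simp [hi]
      · simp
    have e3 : ∑ i : Fin m, (w (.sym 0 i) ^ 2 + w (.sym 1 i) ^ 2 + w (.sym 2 i) ^ 2 + w (.sym 3 i) ^ 2) = 20 := by
      rw [Finset.sum_eq_single j0]
      · simp [hw]
        norm_num
      · intro i _ hi
        simp [hw, hi]
      · simp
    rw [e2, e3]
    simp [hw]
    ring
  have h1 := density_A h w (R := fun p => ∀ i, 2 ≤ |lam α i p|) (κ := (36 * m - 16) ^ 2) (by positivity) fun p hp => by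
    set x : Fin m → ℝ := fun i => lam α i p with hx
    have hx2 : ∀ i, 4 ≤ x i ^ 2 := fun i => by
      rw [← sq_abs]
      nlinarith [hp i]
    have e4 : ∑ a ∈ long m, w a * a.val x = x j0 * (2 + 4 * (x j0 ^ 2 - 2) +
        6 * ∑ i, (if i = j0 then 0 else x i ^ 2 - 1)) := by
      rw [sum_long]
      have f1 : ∑ i : Fin m, (w (.sym 0 i) * (Rep.sym 0 i).val x + w (.sym 1 i) * (Rep.sym 1 i).val x +
          w (.sym 2 i) * (Rep.sym 2 i).val x + w (.sym 3 i) * (Rep.sym 3 i).val x) =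
          2 * x j0 + 4 * (x j0 ^ 3 - 2 * x j0) := by
        rw [Finset.sum_eq_single j0]
        · simp [hw, Rep.val]
        · intro i _ hi
          simp [hw, hi]
        · simp
      have f2 : ∑ i : Fin m, ∑ j : Fin m, (if i ≠ j then w (.adj i j) * (Rep.adj i j).val x else 0) =
          6 * x j0 * ∑ i, (if i = j0 then 0 else x i ^ 2 - 1) := by
        rw [Finset.mul_sum]
        refine Finset.sum_congr rfl fun i _ => ?_
        rw [Finset.sum_eq_single j0]
        · by_cases hi : i = j0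
          · simp [hi]
          · rw [if_pos hi, if_neg hi]
            show (if j0 = j0 then (6 : ℝ) else 0) * ((x i ^ 2 - 1) * x j0) = _
            rw [if_pos rfl]
            ring
        · intro j _ hj
          have : w (.adj i j) = 0 := by simp [hw, hj]
          simp [this]
        · simp
      rw [f1, f2]
      have f3 : ∑ i : Fin m, ∑ j : Fin m, (if i < j then w (.prod i j) * (Rep.prod i j).val x else 0) = 0 := by
        simp [hw]
      rw [f3]
      simp only [hw]
      ring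
    rw [e4, mul_pow]
    have h5 : 3 * ((m : ℝ) - 1) ≤ ∑ i, (if i = j0 then 0 else x i ^ 2 - 1) := by
      have h6 : ∑ i : Fin m, (3 - if i = j0 then (3 : ℝ) else 0) ≤ ∑ i, (if i = j0 then 0 else x i ^ 2 - 1) := by
        refine Finset.sum_le_sum fun i _ => ?_
        split_ifs
        · simp
        · linarith [hx2 i]
      refine le_trans (le_of_eq ?_) h6
      rw [Finset.sum_sub_distrib]
      simp
      ring
    have h7 := hx2 j0
    set Y := 2 + 4 * (x j0 ^ 2 - 2) + 6 * ∑ i, (if i = j0 then 0 else x i ^ 2 - 1) with hY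
    have h8 : 18 * (m : ℝ) - 8 ≤ Y := by
      rw [hY]
      linarith
    have h9 : (18 * (m : ℝ) - 8) ^ 2 ≤ Y ^ 2 := pow_le_pow_left₀ (by linarith) h8 2
    calc (36 * (m : ℝ) - 16) ^ 2 = 4 * (18 * (m : ℝ) - 8) ^ 2 := by ring
      _ ≤ x j0 ^ 2 * Y ^ 2 := mul_le_mul h7 h9 (sq_nonneg _) (sq_nonneg _)
  rw [hsq] at h1
  refine h1.mono (fun p hp => hp) (le_of_eq ?_)
  rw [sq, div_mul_eq_div_div, div_self hκ.ne']

/-- Linear forms in the eigenvalues. -/
theorem linear (h : Family α (short m)) {c : Fin m → ℝ} (hc : ∑ i, c i ^ 2 = 1) {s : ℝ} (hs : 1 ≤ s) :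
    UpperDensityLe (fun p => s ≤ ∑ i, c i * lam α i p)
      (1 / (1 + s ^ 2 + (s ^ 2 - 1) ^ 2 / (2 - ∑ i, c i ^ 4))) := by
  classical
  have hq4 : ∑ i, c i ^ 4 ≤ 1 := by
    have h1 : ∀ i, c i ^ 2 ≤ 1 := fun i => by
      rw [← hc]
      exact Finset.single_le_sum (f := fun i => c i ^ 2) (fun i _ => sq_nonneg _) (Finset.mem_univ i)
    calc ∑ i, c i ^ 4 ≤ ∑ i, c i ^ 2 := Finset.sum_le_sum fun i _ => by nlinarith [h1 i, sq_nonneg (c i)]
      _ = 1 := hc
  set q : ℝ := 2 - ∑ i, c i ^ 4 with hq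
  have hq0 : 0 < q := by linarith
  set u : ℝ := (s ^ 2 - 1) / q with hu
  have hs2 : 0 ≤ s ^ 2 - 1 := by nlinarith
  have hu0 : 0 ≤ u := div_nonneg hs2 hq0.le
  set B : ℝ := 1 + s ^ 2 + (s ^ 2 - 1) ^ 2 / q with hB
  have hB0 : 0 < B := by positivity
  have hBu : B = 1 + s ^ 2 + u * (s ^ 2 - 1) := by
    rw [hB, hu]
    ring
  set w : Rep m → ℝ := fun a => match a with
    | .one => 1
    | .sym k i => (![s * c i, u * c i ^ 2, 0, 0] : Fin 4 → ℝ) k
    | .prod i j => 2 * u * (c i * c j)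
    | .adj _ _ => 0 with hw
  have hsq : ∑ a ∈ short m, w a ^ 2 = B := by
    rw [sum_short]
    have e1 : ∀ i : Fin m, w (.sym 0 i) ^ 2 + w (.sym 1 i) ^ 2 = s ^ 2 * c i ^ 2 + u ^ 2 * c i ^ 4 := fun i => by
      simp [hw]
      ring
    have e2 : ∀ i j : Fin m, (if i < j then w (.prod i j) ^ 2 else 0) =
        4 * u ^ 2 * if i < j then c i ^ 2 * c j ^ 2 else 0 := fun i j => by
      split_ifs
      · show (2 * u * (c i * c j)) ^ 2 = _
        ring
      · simp
    simp only [e1, e2, ← Finset.mul_sum, Finset.sum_add_distrib, sum_lt' fun i => c i ^ 2, hc]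
    have e3 : ∑ i, (c i ^ 2) ^ 2 = 2 - q := by
      rw [hq, sub_sub_cancel]
      exact Finset.sum_congr rfl fun i _ => by ring
    have e4 : ∑ i, c i ^ 4 = 2 - q := by rw [hq, sub_sub_cancel]
    rw [e3, e4, hBu]
    have e5 : u * q = s ^ 2 - 1 := by
      rw [hu]
      field_simp
    simp only [hw]
    rw [← e5]
    ring
  have h1 := density_A h w (R := fun p => s ≤ ∑ i, c i * lam α i p) (κ := B ^ 2) (by positivity) fun p hp => by
    set x : Fin m → ℝ := fun i => lam α i p with hx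
    refine pow_le_pow_left₀ hB0.le ?_ 2
    have e4 : ∑ a ∈ short m, w a * a.val x = 1 + s * (∑ i, c i * x i) + u * ((∑ i, c i * x i) ^ 2 - 1) := by
      rw [sum_short]
      have e1 : ∀ i : Fin m, w (.sym 0 i) * (Rep.sym 0 i).val x + w (.sym 1 i) * (Rep.sym 1 i).val x =
          s * (c i * x i) + u * ((c i * x i) ^ 2 - c i ^ 2) := fun i => by
        simp [hw, Rep.val]
        ring
      have e2 : ∀ i j : Fin m, (if i < j then w (.prod i j) * (Rep.prod i j).val x else 0) =
          2 * u * if i < j then (c i * x i) * (c j * x j) else 0 := fun i j => by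
        split_ifs
        · show 2 * u * (c i * c j) * (x i * x j) = _
          ring
        · simp
      simp only [e1, e2, ← Finset.mul_sum, Finset.sum_add_distrib, Finset.sum_sub_distrib,
        sum_lt' fun i => c i * x i, hc]
      show (1 : ℝ) * 1 + _ = _
      ring
    rw [e4, hBu]
    have h2 : s ≤ ∑ i, c i * x i := hp
    set S := ∑ i, c i * x i
    have h3 : s ^ 2 ≤ S ^ 2 := pow_le_pow_left₀ (by linarith) h2 2
    have h4 : s * s ≤ s * S := mul_le_mul_of_nonneg_left h2 (by linarith)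
    have h5 : u * (s ^ 2 - 1) ≤ u * (S ^ 2 - 1) := mul_le_mul_of_nonneg_left (by linarith) hu0
    linarith
  rw [hsq] at h1
  refine h1.mono (fun p hp => hp) (le_of_eq ?_)
  rw [sq B, div_mul_eq_div_div, div_self hB0.ne']

theorem two_le {w : ℂ} (h : Uni w) (hw : ‖w‖ ≠ 1) : 2 ≤ |(w + w⁻¹).re| := by
  rcases h.2 with h2 | h2
  · exact absurd h2 hw
  · have e : w = ((w.re : ℝ) : ℂ) := Complex.ext (by simp) (by simpa using h2)
    have h0 : w.re ≠ 0 := fun h0 => h.1 (by rw [e, h0]; simp)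
    rw [e, ← Complex.ofReal_inv, ← Complex.ofReal_add, Complex.ofReal_re]
    have h3 : (w.re + w.re⁻¹) ^ 2 = (w.re - w.re⁻¹) ^ 2 + 4 := by
      field_simp
      ring
    have h4 : (2 : ℝ) ^ 2 ≤ |w.re + w.re⁻¹| ^ 2 := by
      rw [sq_abs, h3]
      nlinarith [sq_nonneg (w.re - w.re⁻¹)]
    exact le_of_sq_le_sq h4 (abs_nonneg _)

theorem two_le_lam (h : Family α A) {i : Fin m} {p : Nat.Primes} (hp : ‖α i p‖ ≠ 1) : 2 ≤ |lam α i p| :=
  two_le (uni h i p) hp

theorem Exc.two_le {e : ℝ} (he : e ^ 2 = 1) (h : Family α A) {i : Fin m} {p : Nat.Primes} (hp : Exc α i e p) :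
    2 ≤ e * lam α i p := by
  have h1 := two_le_lam h hp.1
  have h2 : |e * lam α i p| = |lam α i p| := by
    have h3 : |e| = 1 := by
      have h4 : |e| ^ 2 = 1 := by rw [sq_abs, he]
      nlinarith [abs_nonneg e]
    rw [abs_mul, h3, one_mul]
  have h5 := hp.2
  rw [← h2, abs_of_pos h5] at h1
  exact h1

theorem sum_count {ε : Fin m → ℝ} {p : Nat.Primes} (g : Fin m → ℝ) (a b : ℝ) (hg : ∀ i, -b ≤ g i)
    (hg2 : ∀ i, Exc α i (ε i) p → a - b ≤ g i) : a * count α ε p - b * m ≤ ∑ i, g i := by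
  classical
  have h3 : ∑ i : Fin m, ((if Exc α i (ε i) p then a else 0) - b) = a * count α ε p - b * m := by
    rw [Finset.sum_sub_distrib, ← Finset.sum_filter]
    unfold count
    simp only [Finset.sum_const, nsmul_eq_mul, Finset.card_univ, Fintype.card_fin]
    rw [mul_comm, mul_comm b]
  rw [← h3]
  refine Finset.sum_le_sum fun i _ => ?_
  split_ifs with hi
  · exact hg2 i hi
  · linarith [hg i]

/-- The number of the large eigenvalues, from the short list. -/
theorem count_short (h : Family α (short m)) (hm : 0 < m) {ε : Fin m → ℝ} (hε : ∀ i, ε i ^ 2 = 1) {δ : ℝ}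
    (hδ : 0 < δ) : UpperDensityLe (fun p => (1 / 5 + δ) * m ≤ count α ε p) (32 / (32 + 625 * δ ^ 2 * m)) := by
  classical
  have hm' : (0 : ℝ) < m := by exact_mod_cast hm
  set s0 : ℝ := 32 / (25 * δ) with hs0
  have hs0p : 0 < s0 := by positivity
  set w : Rep m → ℝ := fun a => match a with
    | .one => s0
    | .sym k i => (![4 * ε i, 4, 0, 0] : Fin 4 → ℝ) k
    | .prod _ _ => 0
    | .adj _ _ => 0 with hw
  have hsq : ∑ a ∈ short m, w a ^ 2 = s0 ^ 2 + 32 * m := by
    rw [sum_short]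
    have e1 : ∀ i : Fin m, w (.sym 0 i) ^ 2 + w (.sym 1 i) ^ 2 = 32 := fun i => by
      have := hε i
      simp [hw]
      linear_combination 16 * this
    have e2 : ∀ i j : Fin m, (if i < j then w (.prod i j) ^ 2 else 0) = 0 := fun i j => by
      simp [hw]
    simp only [e1, e2]
    simp [hw]
    ring
  have h1 := density_A h w (R := fun p => (1 / 5 + δ) * m ≤ count α ε p) (κ := (s0 + 25 * δ * m) ^ 2)
    (by positivity) fun p hp => by
      set x : Fin m → ℝ := fun i => lam α i p with hx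
      refine pow_le_pow_left₀ (by positivity) ?_ 2
      have e4 : ∑ a ∈ short m, w a * a.val x = s0 + ∑ i, (4 * ε i * x i + 4 * (x i ^ 2 - 1)) := by
        rw [sum_short]
        have e1 : ∀ i : Fin m, w (.sym 0 i) * (Rep.sym 0 i).val x + w (.sym 1 i) * (Rep.sym 1 i).val x =
            4 * ε i * x i + 4 * (x i ^ 2 - 1) := fun i => by
          simp [hw, Rep.val]
        have e2 : ∀ i j : Fin m, (if i < j then w (.prod i j) * (Rep.prod i j).val x else 0) = 0 := fun i j => by
          simp [hw]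
        simp only [e1, e2]
        simp [hw, Rep.val]
      rw [e4]
      have h2 := sum_count (α := α) (ε := ε) (p := p) (fun i => 4 * ε i * x i + 4 * (x i ^ 2 - 1)) 25 5
        (fun i => by
          show -5 ≤ 4 * ε i * x i + 4 * (x i ^ 2 - 1)
          nlinarith [sq_nonneg (2 * x i + ε i), hε i])
        (fun i hi => by
          show 25 - 5 ≤ 4 * ε i * x i + 4 * (x i ^ 2 - 1)
          have h3 : 2 ≤ ε i * x i := hi.two_le (hε i) h
          have h4 : (ε i * x i) ^ 2 = x i ^ 2 := by rw [mul_pow, hε i, one_mul]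
          nlinarith)
      have h3 : (1 / 5 + δ) * m ≤ count α ε p := hp
      have h4 : 25 * δ * m ≤ 25 * count α ε p - 5 * m := by nlinarith
      linarith
  rw [hsq] at h1
  refine h1.mono (fun p hp => hp) (le_of_eq ?_)
  have e : s0 ^ 2 + 32 * m = s0 * (s0 + 25 * δ * m) := by
    rw [hs0]
    field_simp
  rw [e, sq (s0 + _), mul_div_mul_right _ _ (by positivity), hs0]
  field_simp
  ring

/-- The number of the large eigenvalues, from the long list. -/
theorem count_long (h : Family α (long m)) (hm : 0 < m) {ε : Fin m → ℝ} (hε : ∀ i, ε i ^ 2 = 1) {δ : ℝ}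
    (hδ : 0 < δ) :
    UpperDensityLe (fun p => (1 / 14 + δ) * m ≤ count α ε p) (421 / (421 + 19208 * δ ^ 2 * m)) := by
  classical
  have hm' : (0 : ℝ) < m := by exact_mod_cast hm
  set s0 : ℝ := 842 / (196 * δ) with hs0
  have hs0p : 0 < s0 := by positivity
  set w : Rep m → ℝ := fun a => match a with
    | .one => s0
    | .sym k i => (![16 * ε i, 19, 12 * ε i, 9] : Fin 4 → ℝ) k
    | .prod _ _ => 0
    | .adj _ _ => 0 with hw
  have hsq : ∑ a ∈ long m, w a ^ 2 = s0 ^ 2 + 842 * m := by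
    rw [sum_long]
    have e1 : ∀ i : Fin m, w (.sym 0 i) ^ 2 + w (.sym 1 i) ^ 2 + w (.sym 2 i) ^ 2 + w (.sym 3 i) ^ 2 = 842 :=
      fun i => by
        have := hε i
        simp [hw]
        linear_combination 400 * this
    have e2 : ∀ i j : Fin m, (if i < j then w (.prod i j) ^ 2 else 0) = 0 := fun i j => by
      simp [hw]
    have e3 : ∀ i j : Fin m, (if i ≠ j then w (.adj i j) ^ 2 else 0) = 0 := fun i j => by
      simp [hw]
    simp only [e1, e2, e3]
    simp [hw]
    ring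
  have h1 := density_A h w (R := fun p => (1 / 14 + δ) * m ≤ count α ε p) (κ := (s0 + 196 * δ * m) ^ 2)
    (by positivity) fun p hp => by
      set x : Fin m → ℝ := fun i => lam α i p with hx
      refine pow_le_pow_left₀ (by positivity) ?_ 2
      set g : Fin m → ℝ := fun i => 16 * ε i * x i + 19 * (x i ^ 2 - 1) + 12 * ε i * (x i ^ 3 - 2 * x i) +
        9 * (x i ^ 4 - 3 * x i ^ 2 + 1) with hg
      have e4 : ∑ a ∈ long m, w a * a.val x = s0 + ∑ i, g i := by
        rw [sum_long]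
        have e1 : ∀ i : Fin m, w (.sym 0 i) * (Rep.sym 0 i).val x + w (.sym 1 i) * (Rep.sym 1 i).val x +
            w (.sym 2 i) * (Rep.sym 2 i).val x + w (.sym 3 i) * (Rep.sym 3 i).val x = g i := fun i => by
          simp [hw, Rep.val, hg]
        have e2 : ∀ i j : Fin m, (if i < j then w (.prod i j) * (Rep.prod i j).val x else 0) = 0 := fun i j => by
          simp [hw]
        have e3 : ∀ i j : Fin m, (if i ≠ j then w (.adj i j) * (Rep.adj i j).val x else 0) = 0 := fun i j => by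
          simp [hw]
        simp only [e1, e2, e3]
        simp [hw, Rep.val]
      rw [e4]
      have hg1 : ∀ i, g i = (3 * (ε i * x i) ^ 2 + 2 * (ε i * x i) - 2) ^ 2 - 14 := fun i => by
        have := hε i
        simp only [hg]
        linear_combination (-9 * x i ^ 4 * (ε i ^ 2 + 1) - 12 * ε i * x i ^ 3 + 8 * x i ^ 2) * this
      have h2 := sum_count (α := α) (ε := ε) (p := p) g 196 14
        (fun i => by
          rw [hg1]
          nlinarith [sq_nonneg (3 * (ε i * x i) ^ 2 + 2 * (ε i * x i) - 2)])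
        (fun i hi => by
          rw [hg1]
          have h3 : 2 ≤ ε i * x i := hi.two_le (hε i) h
          have h4 : 14 ≤ 3 * (ε i * x i) ^ 2 + 2 * (ε i * x i) - 2 := by nlinarith
          nlinarith)
      have h3 : (1 / 14 + δ) * m ≤ count α ε p := hp
      have h4 : 196 * δ * m ≤ 196 * count α ε p - 14 * m := by nlinarith
      linarith
  rw [hsq] at h1
  refine h1.mono (fun p hp => hp) (le_of_eq ?_)
  have e : s0 ^ 2 + 842 * m = s0 * (s0 + 196 * δ * m) := by
    rw [hs0]
    field_simp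
  rw [e, sq (s0 + _), mul_div_mul_right _ _ (by positivity), hs0]
  field_simp
  ring

end Pool.Agent.N678.SG
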